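import Pool.Agent.Helper92.MM.Defs
import Pool.Agent.Helper96.AD.A6
import Pool.Agent.Helper43.AD.A2
import Pool.Agent.Helper92.SP.D2

/-!
# MM-M3: the mean of the majorant on the large blocks, `J = 3`
-/

open MeasureTheory Real Set Filter Topology

set_option autoImplicit false

namespace Pool.Agent.Helper54.MM

open Pool.Agent.Helper22.AE
open Pool.Agent.Helper60.AD
open Pool.Agent.Helper92.MM
open Pool.Agent.Helper96.AD (Yq_cont Yq_le Yq_mean)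
open Pool.Agent.Helper43.AD (fq_card arc_child)

/-- the bound for the mean of one mean square -/
noncomputable def Bd54 (J n M s : ℕ) (η R₀ : ℝ) : ℝ :=
  Dc (2 ^ n) M (s + 1) ^ J * ((2 * rr J M η (s + 1) + 1) * (2 * rr J M η (s + 1) * (1 / (2 * (M : ℝ) ^ (s + 1))) + 1)) +
    Dc (2 ^ n) M (s + 1) ^ (2 * J) * exp (-(π / 16) * R₀ ^ 2 * η ^ 2)

theorem mean54 {L J M s n j : ℕ} (hJ : 2 ≤ J) (hJL : 2 * J ≤ L) (hM : 1 ≤ M) {H₀ : ℝ → ℝ} (h0 : ContDiff ℝ 2 H₀) (b : ℤ × ℤ → ℂ)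
    (hb : ∀ k, ‖b k‖ ≤ 1) {a : Fin J → Fin M} (ha : a ∈ gapT J M) {R₀ R α η : ℝ}
    (hR₀ : 1 ≤ R₀) (hR : R₀ / 2 ≤ R) (hα : 1 / 2 ≤ |cos α|) (hη : 0 < η)
    (h1 : J * 4 ^ J * (2 * η) ≤ 2 ^ n * (1 / (2 * (M : ℝ) ^ (s + 1))) ^ (2 * J - 1))
    (h2 : 50 * J * 4 ^ J * η < (1 / (2 * (M : ℝ) ^ (s + 1))) ^ (2 * J - 3)) :
    ∫ w : (Fin L → ℝ) × (Fin L → ℝ), Yq (Hw H₀ w) (arcs n s j a) (fun _ => b) R α ∂(gm L) ≤ Bd54 J n M s η R₀ := by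
  classical
  unfold Bd54
  have hMpos : (0 : ℝ) < (M : ℝ) := by exact_mod_cast hM
  have hM1 : (1 : ℝ) ≤ (M : ℝ) := by exact_mod_cast hM
  have hDc : 0 ≤ Dc (2 ^ n) M (s + 1) := by unfold Dc; positivity
  have hτ : (0 : ℝ) < 1 / (2 * (M : ℝ) ^ (s + 1)) := by positivity
  have hτ1 : 1 / (2 * (M : ℝ) ^ (s + 1)) ≤ 1 := by
    rw [div_le_one (by positivity)]
    have := one_le_pow₀ hM1 (n := s + 1)
    linarith
  have hrr : 0 ≤ rr J M η (s + 1) := by unfold rr; positivity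
  set N : ℝ := (2 * rr J M η (s + 1) + 1) * (2 * rr J M η (s + 1) * (1 / (2 * (M : ℝ) ^ (s + 1))) + 1) with hNdef
  have hN0 : 0 ≤ N := by rw [hNdef]; positivity
  have hI' : ∀ t t', t ≠ t' → (a t : ℕ) + 2 ≤ a t' ∨ (a t' : ℕ) + 2 ≤ a t := (Finset.mem_filter.mp ha).2
  unfold arcs
  set A : Fin J → Finset (ℤ × ℤ) := fun t => arcSet (blk n) (8 * M ^ (s + 1)) (M * j + a t) with hA
  have hAm : ∀ i, ∀ k ∈ A i, (2 : ℝ) ^ n ≤ nk k ∧ nk k ≤ 2 ^ (n + 1) := by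
    intro i k hk
    have h3 : k ∈ blk n := (Finset.mem_filter.mp hk).1
    have h4 := (Finset.mem_filter.mp h3).2
    exact ⟨h4.1, h4.2.le⟩
  have hAs : ∀ i i', i ≠ i' → ∀ k ∈ A i, ∀ k' ∈ A i', 1 / (2 * (M : ℝ) ^ (s + 1)) ≤ ‖zk k - zk k'‖ := by
    intro i i' hii k hk k' hk'
    rcases hI' i i' hii with h | h
    · exact arc_sep hM (a i').isLt h hk hk'
    · rw [norm_sub_rev]
      exact arc_sep hM (a i).isLt h hk' hk
  have hcard : ∀ t, ((A t).card : ℝ) ≤ Dc (2 ^ n) M (s + 1) := by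
    intro t
    have h8 : 8 ≤ 8 * M ^ (s + 1) := Nat.le_mul_of_pos_right 8 (Nat.pow_pos hM)
    have h3 := arc_card n h8 (M * j + a t)
    unfold Dc
    push_cast at h3
    exact h3
  have hprod : ∏ t, ((A t).card : ℝ) ≤ Dc (2 ^ n) M (s + 1) ^ J := by
    calc ∏ t, ((A t).card : ℝ) ≤ ∏ _t : Fin J, Dc (2 ^ n) M (s + 1) :=
          Finset.prod_le_prod (fun i _ => Nat.cast_nonneg _) (fun i _ => hcard i)
      _ = Dc (2 ^ n) M (s + 1) ^ J := by simp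
  have hprod0 : 0 ≤ ∏ t, ((A t).card : ℝ) := Finset.prod_nonneg fun i _ => Nat.cast_nonneg _
  have hR0 : 0 < R := lt_of_lt_of_le (by linarith) hR
  have hms := Yq_mean hJL h0 A (fun _ => b) (fun _ k _ => hb k) hR0 hα hη (N := N)
    (fun k hk => by
      have := Pool.Agent.Helper92.SP.collisions_rect hJ hη hτ hτ1 A hAm hAs h1 h2 k hk
      rw [hNdef]
      unfold rr
      exact this)
  refine hms.trans ?_
  refine add_le_add (mul_le_mul_of_nonneg_right hprod hN0) ?_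
  have he : exp (-(π / 4) * R ^ 2 * η ^ 2) ≤ exp (-(π / 16) * R₀ ^ 2 * η ^ 2) := by
    apply exp_le_exp.2
    have h5 : R₀ ^ 2 ≤ 4 * R ^ 2 := by
      have h6 : R₀ ≤ 2 * R := by linarith
      have h7 : R₀ ^ 2 ≤ (2 * R) ^ 2 := pow_le_pow_left₀ (by linarith) h6 2
      linarith
    have h8 : 0 ≤ π / 16 * η ^ 2 := by positivity
    nlinarith
  calc (∏ i, ((A i).card : ℝ)) ^ 2 * exp (-(π / 4) * R ^ 2 * η ^ 2)
      ≤ (Dc (2 ^ n) M (s + 1) ^ J) ^ 2 * exp (-(π / 16) * R₀ ^ 2 * η ^ 2) :=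
        mul_le_mul (pow_le_pow_left₀ hprod0 hprod 2) he (exp_pos _).le (by positivity)
    _ = Dc (2 ^ n) M (s + 1) ^ (2 * J) * exp (-(π / 16) * R₀ ^ 2 * η ^ 2) := by
        rw [← pow_mul, mul_comm J 2]

theorem Bd54_nonneg (J n M s : ℕ) (hM : 1 ≤ M) {η : ℝ} (hη : 0 < η) (R₀ : ℝ) : 0 ≤ Bd54 J n M s η R₀ := by
  have hMpos : (0 : ℝ) < (M : ℝ) := by exact_mod_cast hM
  have hDc : 0 ≤ Dc (2 ^ n) M (s + 1) := by unfold Dc; positivity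
  have hrr : 0 ≤ rr J M η (s + 1) := by unfold rr; positivity
  unfold Bd54
  positivity

theorem int54 {L J : ℕ} {H₀ : ℝ → ℝ} (h0 : ContDiff ℝ 2 H₀) (A : Fin J → Finset (ℤ × ℤ)) (b : ℤ × ℤ → ℂ) (hb : ∀ k, ‖b k‖ ≤ 1) (R α : ℝ) :
    Integrable (fun w : (Fin L → ℝ) × (Fin L → ℝ) => Yq (Hw H₀ w) A (fun _ => b) R α) (gm L) := by
  have h1 := Yq_cont (L := L) h0 A (fun _ _ => b) (fun t k => continuous_const)
  have h2 : Continuous (fun w : (Fin L → ℝ) × (Fin L → ℝ) => (((R, α) : ℝ × ℝ), w)) := by fun_prop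
  have h3 := h1.comp h2
  simp only [Function.comp_def] at h3
  refine Integrable.of_bound (C := (∏ t, ((A t).card : ℝ)) ^ 2) h3.aestronglyMeasurable (ae_of_all _ fun w => ?_)
  have h := Yq_le (Hw H₀ w) A (fun _ => b) (fun _ k _ => hb k) R α
  rw [Real.norm_of_nonneg h.1]
  exact h.2

theorem vs54 {L J M s n : ℕ} (hJ : 2 ≤ J) (hJL : 2 * J ≤ L) (hM : 1 ≤ M) {H₀ : ℝ → ℝ} (h0 : ContDiff ℝ 2 H₀) (b : ℤ × ℤ → ℂ)
    (hb : ∀ k, ‖b k‖ ≤ 1) {R₀ R α η : ℝ}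
    (hR₀ : 1 ≤ R₀) (hR : R₀ / 2 ≤ R) (hα : 1 / 2 ≤ |cos α|) (hη : 0 < η)
    (h1 : J * 4 ^ J * (2 * η) ≤ 2 ^ n * (1 / (2 * (M : ℝ) ^ (s + 1))) ^ (2 * J - 1))
    (h2 : 50 * J * 4 ^ J * η < (1 / (2 * (M : ℝ) ^ (s + 1))) ^ (2 * J - 3)) :
    Integrable (fun w : (Fin L → ℝ) × (Fin L → ℝ) => Vs J M s (Hw H₀ w) n b R α) (gm L) ∧
    ∫ w : (Fin L → ℝ) × (Fin L → ℝ), Vs J M s (Hw H₀ w) n b R α ∂(gm L) ≤
      8 * (M : ℝ) ^ s * M ^ J * (((8 * J * 2 ^ n + 1) * (5 * J * 2 ^ n / M ^ s + 1)) * Bd54 J n M s η R₀) := by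
  classical
  have hMpos : (0 : ℝ) < (M : ℝ) := by exact_mod_cast hM
  have hint : ∀ (j : ℕ) (a : Fin J → Fin M), Integrable (fun w : (Fin L → ℝ) × (Fin L → ℝ) =>
      ((fq (arcs n s j a)).card : ℝ) * Yq (Hw H₀ w) (arcs n s j a) (fun _ => b) R α) (gm L) := fun j a =>
    (int54 h0 _ b hb R α).const_mul _
  have hB0 : 0 ≤ Bd54 J n M s η R₀ := Bd54_nonneg J n M s hM hη R₀
  set F : ℝ := (8 * J * 2 ^ n + 1) * (5 * J * 2 ^ n / M ^ s + 1) with hF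
  have hF0 : 0 ≤ F := by positivity
  have hgap : ((gapT J M).card : ℝ) ≤ (M : ℝ) ^ J := by
    have h3 : (gapT J M).card ≤ M ^ J := by
      calc (gapT J M).card ≤ (Finset.univ : Finset (Fin J → Fin M)).card :=
            Finset.card_filter_le _ _
        _ = M ^ J := by simp
    exact_mod_cast h3
  have key : ∀ j : ℕ, ∀ a ∈ gapT J M, ∫ w : (Fin L → ℝ) × (Fin L → ℝ),
      ((fq (arcs n s j a)).card : ℝ) * Yq (Hw H₀ w) (arcs n s j a) (fun _ => b) R α ∂(gm L) ≤ F * Bd54 J n M s η R₀ := by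
    intro j a ha
    rw [integral_const_mul]
    have h3 := mean54 (L := L) (n := n) (j := j) hJ hJL hM h0 b hb ha hR₀ hR hα hη h1 h2
    have h4 := fq_card (n := n) (s := s) (j := j) hM (arcs n s j a) (fun t => arc_child (blk n) hM (a t).2)
    exact (mul_le_mul_of_nonneg_left h3 (Nat.cast_nonneg _)).trans (mul_le_mul_of_nonneg_right h4 hB0)
  unfold Vs
  refine ⟨integrable_finsetSum _ (fun j _ => integrable_finsetSum _ (fun a _ => hint j a)), ?_⟩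
  rw [integral_finsetSum _ (fun j _ => integrable_finsetSum _ (fun a _ => hint j a))]
  have hj : ∀ j ∈ Finset.range (8 * M ^ s),
      ∫ w : (Fin L → ℝ) × (Fin L → ℝ), ∑ a ∈ gapT J M,
        ((fq (arcs n s j a)).card : ℝ) * Yq (Hw H₀ w) (arcs n s j a) (fun _ => b) R α ∂(gm L) ≤
      (M : ℝ) ^ J * (F * Bd54 J n M s η R₀) := by
    intro j _
    rw [integral_finsetSum _ (fun a _ => hint j a)]
    calc _ ≤ ∑ _a ∈ gapT J M, (F * Bd54 J n M s η R₀) := Finset.sum_le_sum (fun a ha => key j a ha)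
      _ = ((gapT J M).card : ℝ) * (F * Bd54 J n M s η R₀) := by rw [Finset.sum_const, nsmul_eq_mul]
      _ ≤ (M : ℝ) ^ J * (F * Bd54 J n M s η R₀) := mul_le_mul_of_nonneg_right hgap (mul_nonneg hF0 hB0)
  calc _ ≤ ∑ _j ∈ Finset.range (8 * M ^ s), (M : ℝ) ^ J * (F * Bd54 J n M s η R₀) := Finset.sum_le_sum hj
    _ = 8 * (M : ℝ) ^ s * M ^ J * (F * Bd54 J n M s η R₀) := by
        rw [Finset.sum_const, nsmul_eq_mul, Finset.card_range]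
        push_cast
        ring


theorem expb54 (K : ℕ) : ∃ C : ℝ, 0 < C ∧ ∀ y : ℝ, 0 ≤ y → y ^ K * exp (-(π / 16) * y) ≤ C := by
  refine ⟨(K.factorial : ℝ) / (π / 16) ^ K, by positivity, fun y hy => ?_⟩
  have h1 := Real.pow_div_factorial_le_exp (π / 16 * y) (by positivity) K
  have h2 : exp (-(π / 16) * y) = (exp (π / 16 * y))⁻¹ := by
    rw [← Real.exp_neg]
    congr 1
    ring
  rw [h2, ← div_eq_mul_inv, div_le_div_iff₀ (exp_pos _) (by positivity)]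
  rw [mul_pow, div_le_iff₀ (by positivity)] at h1
  calc y ^ K * (π / 16) ^ K = (π / 16) ^ K * y ^ K := by ring
    _ ≤ _ := h1
    _ = _ := by ring

theorem dc_le54 {x M : ℝ} {t : ℕ} (hx : 1 ≤ x) (hM : 1 ≤ M) (h : M ^ t ≤ x) : Dc x M t ≤ 60 * x ^ 2 / M ^ t := by
  have hMt : 0 < M ^ t := by positivity
  unfold Dc
  have h1 : 4 * x + 1 ≤ 5 * x := by linarith
  have h2 : 6 * x * (2 * π / (8 * M ^ t)) + 1 ≤ 6 * (x / M ^ t) := by
    have h3 : 1 ≤ x / M ^ t := by rwa [le_div_iff₀ hMt, one_mul]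
    have h4 : 6 * x * (2 * π / (8 * M ^ t)) = 3 / 2 * π * (x / M ^ t) := by
      field_simp
      ring
    rw [h4]
    have h5 : 3 / 2 * π ≤ 5 := by linarith [pi_lt_d2]
    nlinarith
  calc 2 * (4 * x + 1) * (6 * x * (2 * π / (8 * M ^ t)) + 1) ≤ 2 * (5 * x) * (6 * (x / M ^ t)) := by
        have : 0 ≤ 6 * x * (2 * π / (8 * M ^ t)) + 1 := by positivity
        gcongr
    _ = _ := by
        field_simp
        ring

theorem num54 {x y M P S D r η E CE : ℝ} (hy : 1 ≤ y) (hx : x = y ^ 40) (hM0 : 1 ≤ M) (hMy : M ≤ y) (hP1 : 1 ≤ P) (hP : P ≤ y ^ 22)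
    (hS1 : 1 ≤ S) (hSx : S ≤ x) (hη : 0 < η) (hη2 : η * y ^ 77 ≤ 1) (hD0 : 0 ≤ D) (hD : D ≤ 60 * x ^ 2 / P)
    (hr : r = 153600 * η * P ^ 5) (hE0 : 0 ≤ E) (hE : y ^ 480 * E ≤ CE) :
    8 * S * M ^ 3 * (((24 * x + 1) * (15 * x / S + 1)) * (D ^ 3 * ((2 * r + 1) * (2 * r * (1 / (2 * P)) + 1)) + D ^ 6 * E)) ≤
      3200 * (216000 * (307201 * 153601) + 60 ^ 6 * CE) * y ^ 334 := by
  have hy0 : 0 < y := by linarith
  have hx1 : 1 ≤ x := by rw [hx]; exact one_le_pow₀ hy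
  have hx0 : 0 < x := by linarith
  have hP0 : 0 < P := by linarith
  have hS0 : 0 < S := by linarith
  have hM00 : 0 < M := by linarith
  have hr0 : 0 ≤ r := by rw [hr]; positivity
  have hCE : 0 ≤ CE := (by positivity : (0 : ℝ) ≤ y ^ 480 * E).trans hE
  have a1 : (24 * x + 1) * (15 * x / S + 1) ≤ 400 * x ^ 2 / S := by
    have h1 : 24 * x + 1 ≤ 25 * x := by linarith
    have h2 : 15 * x / S + 1 ≤ 16 * (x / S) := by
      have h3 : 1 ≤ x / S := by rwa [le_div_iff₀ hS0, one_mul]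
      have h4 : 15 * x / S = 15 * (x / S) := by ring
      rw [h4]
      linarith
    calc _ ≤ 25 * x * (16 * (x / S)) := by gcongr
      _ = _ := by ring
  have hN0 : 0 ≤ (2 * r + 1) * (2 * r * (1 / (2 * P)) + 1) := by positivity
  have hηP2 : η * P ^ 2 ≤ 1 := by
    have h1 : P ^ 2 ≤ y ^ 77 := by
      calc P ^ 2 ≤ (y ^ 22) ^ 2 := pow_le_pow_left₀ hP0.le hP 2
        _ = y ^ 44 := by ring
        _ ≤ y ^ 77 := pow_le_pow_right₀ hy (by norm_num)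
    exact (mul_le_mul_of_nonneg_left h1 hη.le).trans hη2
  have hηP4 : η * P ^ 4 ≤ y ^ 11 := by
    have h1 : P ^ 4 ≤ y ^ 77 * y ^ 11 := by
      calc P ^ 4 ≤ (y ^ 22) ^ 4 := pow_le_pow_left₀ hP0.le hP 4
        _ = y ^ 77 * y ^ 11 := by ring
    calc η * P ^ 4 ≤ η * (y ^ 77 * y ^ 11) := mul_le_mul_of_nonneg_left h1 hη.le
      _ = (η * y ^ 77) * y ^ 11 := by ring
      _ ≤ 1 * y ^ 11 := mul_le_mul_of_nonneg_right hη2 (by positivity)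
      _ = _ := one_mul _
  have a2 : (1 / P ^ 3) * ((2 * r + 1) * (2 * r * (1 / (2 * P)) + 1)) ≤ 307201 * 153601 * y ^ 11 := by
    have e1 : 2 * r * (1 / (2 * P)) = 153600 * (η * P ^ 4) := by
      rw [hr]
      field_simp
    have e2 : (1 / P ^ 3) * (2 * r + 1) = 307200 * (η * P ^ 2) + 1 / P ^ 3 := by
      rw [hr]
      field_simp
      ring
    have h3 : 1 / P ^ 3 ≤ 1 := by
      rw [div_le_one (by positivity)]
      exact one_le_pow₀ hP1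
    have hy11 : 1 ≤ y ^ 11 := one_le_pow₀ hy
    calc (1 / P ^ 3) * ((2 * r + 1) * (2 * r * (1 / (2 * P)) + 1))
        = ((1 / P ^ 3) * (2 * r + 1)) * (2 * r * (1 / (2 * P)) + 1) := by ring
      _ = (307200 * (η * P ^ 2) + 1 / P ^ 3) * (153600 * (η * P ^ 4) + 1) := by rw [e1, e2]
      _ ≤ 307201 * (153601 * y ^ 11) := by
          refine mul_le_mul ?_ ?_ (by positivity) (by norm_num)
          · linarith
          · linarith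
      _ = _ := by ring
  have a3 : D ^ 3 * ((2 * r + 1) * (2 * r * (1 / (2 * P)) + 1)) ≤ 216000 * (307201 * 153601) * (x ^ 6 * y ^ 11) := by
    have h1 : D ^ 3 ≤ 216000 * x ^ 6 * (1 / P ^ 3) := by
      calc D ^ 3 ≤ (60 * x ^ 2 / P) ^ 3 := pow_le_pow_left₀ hD0 hD 3
        _ = _ := by
          field_simp
          ring
    calc _ ≤ 216000 * x ^ 6 * (1 / P ^ 3) * ((2 * r + 1) * (2 * r * (1 / (2 * P)) + 1)) := mul_le_mul_of_nonneg_right h1 hN0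
      _ = 216000 * x ^ 6 * ((1 / P ^ 3) * ((2 * r + 1) * (2 * r * (1 / (2 * P)) + 1))) := by ring
      _ ≤ 216000 * x ^ 6 * (307201 * 153601 * y ^ 11) := mul_le_mul_of_nonneg_left a2 (by positivity)
      _ = _ := by ring
  have a4 : D ^ 6 * E ≤ 60 ^ 6 * CE := by
    have h1 : D ≤ 60 * x ^ 2 := by
      refine hD.trans ?_
      rw [div_le_iff₀ hP0]
      have : 0 ≤ 60 * x ^ 2 := by positivity
      nlinarith
    have h2 : D ^ 6 ≤ 60 ^ 6 * y ^ 480 := by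
      calc D ^ 6 ≤ (60 * x ^ 2) ^ 6 := pow_le_pow_left₀ hD0 h1 6
        _ = 60 ^ 6 * y ^ 480 := by rw [hx]; ring
    calc D ^ 6 * E ≤ 60 ^ 6 * y ^ 480 * E := mul_le_mul_of_nonneg_right h2 hE0
      _ = 60 ^ 6 * (y ^ 480 * E) := by ring
      _ ≤ _ := mul_le_mul_of_nonneg_left hE (by norm_num)
  have hZ0 : 0 ≤ D ^ 3 * ((2 * r + 1) * (2 * r * (1 / (2 * P)) + 1)) + D ^ 6 * E := by positivity
  have a5 : D ^ 3 * ((2 * r + 1) * (2 * r * (1 / (2 * P)) + 1)) + D ^ 6 * E ≤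
      (216000 * (307201 * 153601) + 60 ^ 6 * CE) * y ^ 251 := by
    have e : x ^ 6 * y ^ 11 = y ^ 251 := by rw [hx]; ring
    rw [e] at a3
    have h1 : 60 ^ 6 * CE ≤ 60 ^ 6 * CE * y ^ 251 := le_mul_of_one_le_right (by positivity) (one_le_pow₀ hy)
    calc _ ≤ 216000 * (307201 * 153601) * y ^ 251 + 60 ^ 6 * CE * y ^ 251 := add_le_add a3 (a4.trans h1)
      _ = _ := by ring
  have hM3 : M ^ 3 ≤ y ^ 3 := pow_le_pow_left₀ hM00.le hMy 3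
  have hc0 : 0 ≤ 216000 * (307201 * 153601) + 60 ^ 6 * CE := by positivity
  calc 8 * S * M ^ 3 * (((24 * x + 1) * (15 * x / S + 1)) * (D ^ 3 * ((2 * r + 1) * (2 * r * (1 / (2 * P)) + 1)) + D ^ 6 * E))
      ≤ 8 * S * y ^ 3 * ((400 * x ^ 2 / S) * ((216000 * (307201 * 153601) + 60 ^ 6 * CE) * y ^ 251)) := by
        gcongr
    _ = 3200 * (216000 * (307201 * 153601) + 60 ^ 6 * CE) * (y ^ 3 * x ^ 2 * y ^ 251) := by
        field_simp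
        ring
    _ = _ := by
        rw [hx]
        ring


theorem large_mean {L : ℕ} (hL : 6 ≤ L) {H₀ : ℝ → ℝ} (h0 : ContDiff ℝ 2 H₀) :
    ∃ C x₀ : ℝ, 0 < C ∧ 1 ≤ x₀ ∧ ∀ (R₀ : ℝ) (n : ℕ), 1 ≤ R₀ → x₀ ≤ (2 : ℝ) ^ n → (2 : ℝ) ^ n ≤ R₀ ^ (51 / 100 : ℝ) →
      ∀ b : ℤ × ℤ → ℂ, (∀ k, ‖b k‖ ≤ 1) → ∀ R α : ℝ, R₀ / 2 ≤ R → 1 / 2 ≤ |cos α| →
        1 ≤ Mx n ∧ ∫ w : (Fin L → ℝ) × (Fin L → ℝ), Maj 3 (Mx n) 22 (Hw H₀ w) n b R α ∂(gm L) ≤ C * ((2 : ℝ) ^ n) ^ (89 / 10 : ℝ) := by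
  obtain ⟨CE, hCE0, hCE⟩ := expb54 480
  obtain ⟨K, hK⟩ : ∃ K : ℝ, K = 3200 * (216000 * (307201 * 153601) + 60 ^ 6 * CE) := ⟨_, rfl⟩
  have hK0 : 0 < K := by rw [hK]; positivity
  refine ⟨(23 * (8 * 12 ^ 22) * 2) ^ 6 * ((60 * 2 ^ 22) ^ 6 + 22 * K), 4 ^ 40, by positivity, by norm_num, ?_⟩
  intro R₀ n hR₀ hn hnR b hb R α hR hα
  obtain ⟨x, hx⟩ : ∃ x : ℝ, x = 2 ^ n := ⟨_, rfl⟩
  rw [← hx] at hn hnR
  have hx1 : 1 ≤ x := le_trans (by norm_num) hn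
  have hx0 : 0 < x := by linarith
  have hR00 : 0 < R₀ := by linarith
  obtain ⟨y, hy⟩ : ∃ y : ℝ, y = x ^ (1 / 40 : ℝ) := ⟨_, rfl⟩
  have hxy : x = y ^ 40 := by
    rw [hy, ← Real.rpow_natCast, ← Real.rpow_mul hx0.le]
    norm_num
  have hy4 : 4 ≤ y := by
    have h1 : ((4 : ℝ) ^ 40) ^ (1 / 40 : ℝ) ≤ x ^ (1 / 40 : ℝ) := Real.rpow_le_rpow (by norm_num) hn (by norm_num)
    rw [← hy, ← Real.rpow_natCast, ← Real.rpow_mul (by norm_num)] at h1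
    norm_num at h1
    exact h1
  have hy1 : 1 ≤ y := by linarith
  have hy0 : 0 < y := by linarith
  obtain ⟨M, hM⟩ : ∃ M : ℕ, M = Mx n := ⟨_, rfl⟩
  have hMf : M = ⌊y⌋₊ := by
    rw [hM, hy, hx]
    rfl
  have hM1 : 1 ≤ M := by
    rw [hMf]
    exact (Nat.one_le_floor_iff y).2 hy1
  have hMr : (1 : ℝ) ≤ M := by exact_mod_cast hM1
  have hM0 : (0 : ℝ) < M := by linarith
  have hMy : (M : ℝ) ≤ y := by rw [hMf]; exact Nat.floor_le hy0.le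
  have hyM : y ≤ 2 * M := by
    have h1 : y < M + 1 := by rw [hMf]; exact Nat.lt_floor_add_one y
    linarith
  obtain ⟨η, hη⟩ : ∃ η : ℝ, η = R₀ ^ (-(99 / 100) : ℝ) := ⟨_, rfl⟩
  have hη0 : 0 < η := by rw [hη]; exact Real.rpow_pos_of_pos hR00 _
  have hη2 : η * y ^ 77 ≤ 1 := by
    have h1 : y ^ 77 ≤ R₀ ^ (99 / 100 : ℝ) := by
      calc y ^ 77 = x ^ (77 / 40 : ℝ) := by
            rw [hy, ← Real.rpow_natCast, ← Real.rpow_mul hx0.le]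
            norm_num
        _ ≤ (R₀ ^ (51 / 100 : ℝ)) ^ (77 / 40 : ℝ) := Real.rpow_le_rpow hx0.le hnR (by norm_num)
        _ = R₀ ^ (51 / 100 * (77 / 40) : ℝ) := (Real.rpow_mul hR00.le _ _).symm
        _ ≤ R₀ ^ (99 / 100 : ℝ) := Real.rpow_le_rpow_of_exponent_le hR₀ (by norm_num)
    calc η * y ^ 77 ≤ R₀ ^ (-(99 / 100) : ℝ) * R₀ ^ (99 / 100 : ℝ) := by
          rw [hη]
          exact mul_le_mul_of_nonneg_left h1 (Real.rpow_nonneg hR00.le _)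
      _ = 1 := by
          rw [← Real.rpow_add hR00]
          norm_num
  have hRη : y ≤ R₀ ^ 2 * η ^ 2 := by
    have h1 : R₀ ^ 2 * η ^ 2 = R₀ ^ (1 / 50 : ℝ) := by
      rw [hη, ← Real.rpow_natCast R₀ 2, ← Real.rpow_natCast (R₀ ^ (-(99 / 100) : ℝ)) 2, ← Real.rpow_mul hR00.le, ← Real.rpow_add hR00]
      norm_num
    rw [h1, hy]
    calc x ^ (1 / 40 : ℝ) ≤ (R₀ ^ (51 / 100 : ℝ)) ^ (1 / 40 : ℝ) := Real.rpow_le_rpow hx0.le hnR (by norm_num)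
      _ = R₀ ^ (51 / 100 * (1 / 40) : ℝ) := (Real.rpow_mul hR00.le _ _).symm
      _ ≤ R₀ ^ (1 / 50 : ℝ) := Real.rpow_le_rpow_of_exponent_le hR₀ (by norm_num)
  obtain ⟨E, hE⟩ : ∃ E : ℝ, E = exp (-(π / 16) * R₀ ^ 2 * η ^ 2) := ⟨_, rfl⟩
  have hE0 : 0 ≤ E := by rw [hE]; exact (exp_pos _).le
  have hEb : y ^ 480 * E ≤ CE := by
    refine le_trans ?_ (hCE y hy0.le)
    refine mul_le_mul_of_nonneg_left ?_ (by positivity)
    rw [hE]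
    apply exp_le_exp.2
    have : 0 < π / 16 := by positivity
    nlinarith
  rw [← hM]
  refine ⟨hM1, ?_⟩
  have hMp : ∀ t : ℕ, t ≤ 22 → (M : ℝ) ^ t ≤ y ^ 22 := by
    intro t ht
    calc (M : ℝ) ^ t ≤ (M : ℝ) ^ 22 := pow_le_pow_right₀ hMr ht
      _ ≤ y ^ 22 := pow_le_pow_left₀ hM0.le hMy 22
  have hMx : ∀ t : ℕ, t ≤ 22 → (M : ℝ) ^ t ≤ x := by
    intro t ht
    refine (hMp t ht).trans ?_
    rw [hxy]
    exact pow_le_pow_right₀ hy1 (by norm_num)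
  have hDc0 : ∀ t : ℕ, 0 ≤ Dc x M t := by
    intro t
    unfold Dc
    positivity
  -- the means
  have hs : ∀ s ∈ Finset.range 22,
      Integrable (fun w : (Fin L → ℝ) × (Fin L → ℝ) => Vs 3 M s (Hw H₀ w) n b R α) (gm L) ∧
      ∫ w : (Fin L → ℝ) × (Fin L → ℝ), Vs 3 M s (Hw H₀ w) n b R α ∂(gm L) ≤ K * y ^ 334 := by
    intro s hs
    have hs' : s < 22 := Finset.mem_range.mp hs
    have hP : (M : ℝ) ^ (s + 1) ≤ y ^ 22 := hMp (s + 1) (by omega)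
    have hP1 : (1 : ℝ) ≤ (M : ℝ) ^ (s + 1) := one_le_pow₀ hMr
    have hP0 : (0 : ℝ) < (M : ℝ) ^ (s + 1) := by linarith
    have h1 : ((3 : ℕ) : ℝ) * 4 ^ 3 * (2 * η) ≤ 2 ^ n * (1 / (2 * (M : ℝ) ^ (s + 1))) ^ (2 * 3 - 1) := by
      rw [← hx, one_div, inv_pow, ← div_eq_mul_inv, le_div_iff₀ (by positivity)]
      have h3 : ((M : ℝ) ^ (s + 1)) ^ 5 ≤ y ^ 110 := by
        calc ((M : ℝ) ^ (s + 1)) ^ 5 ≤ (y ^ 22) ^ 5 := pow_le_pow_left₀ hP0.le hP 5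
          _ = _ := by ring
      have h4 : (12288 : ℝ) ≤ y ^ 7 := by
        calc (12288 : ℝ) ≤ 4 ^ 7 := by norm_num
          _ ≤ y ^ 7 := pow_le_pow_left₀ (by norm_num) hy4 7
      have e : (2 * 3 - 1 : ℕ) = 5 := rfl
      rw [e, mul_pow]
      push_cast
      calc (3 : ℝ) * 4 ^ 3 * (2 * η) * (2 ^ 5 * ((M : ℝ) ^ (s + 1)) ^ 5) = 12288 * (η * ((M : ℝ) ^ (s + 1)) ^ 5) := by ring
        _ ≤ 12288 * (η * y ^ 110) := by gcongr
        _ = 12288 * ((η * y ^ 77) * y ^ 33) := by ring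
        _ ≤ y ^ 7 * (1 * y ^ 33) := by gcongr
        _ = x := by rw [hxy]; ring
    have h2 : 50 * ((3 : ℕ) : ℝ) * 4 ^ 3 * η < (1 / (2 * (M : ℝ) ^ (s + 1))) ^ (2 * 3 - 3) := by
      have e : (2 * 3 - 3 : ℕ) = 3 := rfl
      rw [e, one_div, inv_pow, lt_inv_comm₀ (by positivity) (by positivity), mul_pow]
      have h3 : ((M : ℝ) ^ (s + 1)) ^ 3 ≤ y ^ 66 := by
        calc ((M : ℝ) ^ (s + 1)) ^ 3 ≤ (y ^ 22) ^ 3 := pow_le_pow_left₀ hP0.le hP 3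
          _ = _ := by ring
      have h4 : (76800 : ℝ) < y ^ 11 := by
        calc (76800 : ℝ) < 4 ^ 11 := by norm_num
          _ ≤ y ^ 11 := pow_le_pow_left₀ (by norm_num) hy4 11
      push_cast
      rw [lt_inv_comm₀ (by positivity) (by positivity), ← one_div, lt_div_iff₀ (by positivity)]
      calc 50 * (3 : ℝ) * 4 ^ 3 * η * (2 ^ 3 * ((M : ℝ) ^ (s + 1)) ^ 3) = 76800 * (η * ((M : ℝ) ^ (s + 1)) ^ 3) := by ring
        _ ≤ 76800 * (η * y ^ 66) := by gcongr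
        _ < y ^ 11 * (η * y ^ 66) := by
            have : 0 < η * y ^ 66 := by positivity
            exact mul_lt_mul_of_pos_right h4 this
        _ = η * y ^ 77 := by ring
        _ ≤ 1 := hη2
    obtain ⟨hi, hv⟩ := vs54 (L := L) (J := 3) (M := M) (s := s) (n := n) (by norm_num) (by omega) hM1 h0 b hb hR₀ hR hα hη0 h1 h2
    refine ⟨hi, hv.trans ?_⟩
    have h3 := num54 (x := x) (y := y) (M := M) (P := (M : ℝ) ^ (s + 1)) (S := (M : ℝ) ^ s) (D := Dc x M (s + 1))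
      (r := rr 3 M η (s + 1)) (η := η) (E := E) (CE := CE) hy1 hxy hMr hMy hP1 hP (one_le_pow₀ hMr) (hMx s (by omega)) hη0 hη2
      (hDc0 _) (dc_le54 hx1 hMr (hMx (s + 1) (by omega))) (by
        unfold rr
        push_cast
        field_simp
        ring) hE0 hEb
    rw [hK]
    refine le_trans (le_of_eq ?_) h3
    unfold Bd54
    rw [← hx, ← hE]
    push_cast
    ring
  -- the sum
  have hAj : 0 ≤ Aj 3 M 22 ∧ Aj 3 M 22 ≤ (23 * (8 * 12 ^ 22) * 2) * y := by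
    unfold Aj
    constructor
    · positivity
    · push_cast
      calc ((22 : ℝ) + 1) * (8 * (4 * 3) ^ 22) * (2 * M) = (23 * (8 * 12 ^ 22) * 2) * M := by
            norm_num
            ring
        _ ≤ _ := by gcongr
  have hD : Dc x M 22 ≤ 60 * 2 ^ 22 * y ^ 58 := by
    refine (dc_le54 hx1 hMr (hMx 22 le_rfl)).trans ?_
    rw [div_le_iff₀ (by positivity)]
    have h1 : y ^ 22 ≤ (2 * (M : ℝ)) ^ 22 := pow_le_pow_left₀ hy0.le hyM 22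
    rw [mul_pow] at h1
    calc 60 * x ^ 2 = 60 * y ^ 58 * y ^ 22 := by rw [hxy]; ring
      _ ≤ 60 * y ^ 58 * (2 ^ 22 * (M : ℝ) ^ 22) := by gcongr
      _ = _ := by ring
  have hint : ∫ w : (Fin L → ℝ) × (Fin L → ℝ), Maj 3 M 22 (Hw H₀ w) n b R α ∂(gm L) =
      Aj 3 M 22 ^ 6 * (Dc x M 22 ^ 6 + ∑ s ∈ Finset.range 22, ∫ w : (Fin L → ℝ) × (Fin L → ℝ), Vs 3 M s (Hw H₀ w) n b R α ∂(gm L)) := by
    unfold Maj
    rw [integral_const_mul, integral_add (integrable_const _) (integrable_finsetSum _ fun s hs' => (hs s hs').1),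
      integral_finsetSum _ fun s hs' => (hs s hs').1, integral_const, ← hx]
    simp
  rw [hint]
  have hsum : ∑ s ∈ Finset.range 22, ∫ w : (Fin L → ℝ) × (Fin L → ℝ), Vs 3 M s (Hw H₀ w) n b R α ∂(gm L) ≤ 22 * (K * y ^ 334) := by
    calc _ ≤ ∑ _s ∈ Finset.range 22, K * y ^ 334 := Finset.sum_le_sum fun s hs' => (hs s hs').2
      _ = _ := by
        rw [Finset.sum_const, Finset.card_range, nsmul_eq_mul]
        push_cast
        ring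
  have hx89 : x ^ (89 / 10 : ℝ) = y ^ 356 := by
    rw [hy, ← Real.rpow_natCast, ← Real.rpow_mul hx0.le]
    norm_num
  rw [← hx, hx89]
  have h5 : Dc x M 22 ^ 6 ≤ (60 * 2 ^ 22) ^ 6 * y ^ 348 := by
    calc Dc x M 22 ^ 6 ≤ (60 * 2 ^ 22 * y ^ 58) ^ 6 := pow_le_pow_left₀ (hDc0 22) hD 6
      _ = _ := by ring
  have h6 : 22 * (K * y ^ 334) ≤ 22 * K * y ^ 348 := by
    have : y ^ 334 ≤ y ^ 348 := pow_le_pow_right₀ hy1 (by norm_num)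
    calc 22 * (K * y ^ 334) = 22 * K * y ^ 334 := by ring
      _ ≤ _ := by gcongr
  have h7 : Aj 3 M 22 ^ 6 ≤ (23 * (8 * 12 ^ 22) * 2) ^ 6 * y ^ 6 := by
    calc Aj 3 M 22 ^ 6 ≤ ((23 * (8 * 12 ^ 22) * 2) * y) ^ 6 := pow_le_pow_left₀ hAj.1 hAj.2 6
      _ = _ := by rw [mul_pow]
  have h8 : Dc x M 22 ^ 6 + ∑ s ∈ Finset.range 22, ∫ w : (Fin L → ℝ) × (Fin L → ℝ), Vs 3 M s (Hw H₀ w) n b R α ∂(gm L) ≤
      ((60 * 2 ^ 22) ^ 6 + 22 * K) * y ^ 348 := by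
    calc _ ≤ (60 * 2 ^ 22) ^ 6 * y ^ 348 + 22 * K * y ^ 348 := add_le_add h5 (hsum.trans h6)
      _ = _ := by ring
  have h9 : y ^ 354 ≤ y ^ 356 := pow_le_pow_right₀ hy1 (by norm_num)
  have hA60 : 0 ≤ Aj 3 M 22 ^ 6 := by have := hAj.1; positivity
  have hc1 : (0 : ℝ) ≤ (23 * (8 * 12 ^ 22) * 2) ^ 6 := by positivity
  have hc2 : (0 : ℝ) ≤ (60 * 2 ^ 22) ^ 6 + 22 * K := by positivity
  calc Aj 3 M 22 ^ 6 * (Dc x M 22 ^ 6 + ∑ s ∈ Finset.range 22, ∫ w : (Fin L → ℝ) × (Fin L → ℝ), Vs 3 M s (Hw H₀ w) n b R α ∂(gm L))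
      ≤ Aj 3 M 22 ^ 6 * (((60 * 2 ^ 22) ^ 6 + 22 * K) * y ^ 348) := mul_le_mul_of_nonneg_left h8 hA60
    _ ≤ ((23 * (8 * 12 ^ 22) * 2) ^ 6 * y ^ 6) * (((60 * 2 ^ 22) ^ 6 + 22 * K) * y ^ 348) :=
        mul_le_mul_of_nonneg_right h7 (by positivity)
    _ = (23 * (8 * 12 ^ 22) * 2) ^ 6 * ((60 * 2 ^ 22) ^ 6 + 22 * K) * y ^ 354 := by ring
    _ ≤ _ := mul_le_mul_of_nonneg_left h9 (mul_nonneg hc1 hc2)

end Pool.Agent.Helper54.MM
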